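import Mathlib
import Pool.Agent.MP_34f9b1_co.Quad.Glue

namespace Pool.Agent.MP_34f9b1_co.parked.Quadrilateral

theorem result :
    ∀ (a b c d : EuclideanSpace ℝ (Fin 2)) (F : Set (EuclideanSpace ℝ (Fin 2))),
      F = convexHull ℝ {a, b, c, d} → (interior F).Nonempty →
      ∀ (n : ℕ) (f : Fin n → Set (EuclideanSpace ℝ (Fin 2))),
        (∀ i, ∃ (r : ℝ) (ψ : EuclideanSpace ℝ (Fin 2) ≃ᵢ EuclideanSpace ℝ (Fin 2)),
            0 < r ∧ f i = (fun x => r • ψ x) '' F) →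
        (∑ i, MeasureTheory.volume (f i)) = 1 →
        ∃ R : ℝ, 0 < R ∧ MeasureTheory.volume ((fun x => R • x) '' F) = 2 ∧
          ∃ φ : Fin n → (EuclideanSpace ℝ (Fin 2) ≃ᵢ EuclideanSpace ℝ (Fin 2)),
            (∀ i, φ i '' f i ⊆ (fun x => R • x) '' F) ∧
            (∀ i j, i ≠ j → Disjoint (interior (φ i '' f i)) (interior (φ j '' f j))) ∧
            ∀ i, ∃ (t : ℝ) (z : EuclideanSpace ℝ (Fin 2)),
              t ≠ 0 ∧ φ i '' f i = (fun x => z + t • x) '' F := by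
  rintro a b c d F rfl hi
  exact Pool.Agent.MP_34f9b1_co.Quad.final (Set.Finite.isCompact_convexHull ℝ (Set.toFinite _)) hi
    (Pool.Agent.MP_34f9b1_co.Quad.good a b c d hi)

end Pool.Agent.MP_34f9b1_co.parked.Quadrilateral
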